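import Pool.Agent.H45.Lib.S8.W223.PL.Stms
import Pool.Agent.H45.Lib.S8.W563.HZ.REL
import Pool.Agent.H45.Lib.S8.W303.HZ.IN2

/-! Project PL (helper276), job MIN (helper182): a small coprime relation. -/

set_option autoImplicit false

namespace Pool.Agent.Q182.PL

open Polynomial Pool.Agent.W223.HZ Pool.Agent.W223.PL
open Pool.Agent.W303.HZ.IN2 (pol coeff_pol natDegree_pol eval_pol pol_ne)

/-- a common relation: the determinants vanish -/
theorem det_zero {n : ℕ} {x y : ℤ → ℤ} {A B : ℚ[X]} (h0 : A ≠ 0 ∨ B ≠ 0) (hA : A.natDegree < n)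
    (hB : B.natDegree < n) {T : Finset ℤ}
    (h : ∀ τ ∈ T, (x τ : ℚ) * A.eval (τ : ℚ) + (y τ : ℚ) * B.eval (τ : ℚ) = 0)
    (f : Fin n ⊕ Fin n → ℤ) (hf : ∀ i, f i ∈ T) :
    (Mat n (fun i => x (f i)) (fun i => y (f i)) f).det = 0 := by
  have h1 : ((Int.castRingHom ℚ).mapMatrix (Mat n (fun i => x (f i)) (fun i => y (f i)) f)).det =
      0 := by
    rw [← Matrix.exists_mulVec_eq_zero_iff]
    refine ⟨Sum.elim (fun j : Fin n => A.coeff j) (fun j : Fin n => B.coeff j), ?_, ?_⟩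
    · intro hw
      rcases h0 with h0 | h0
      · have h2 := congrFun hw (Sum.inl ⟨A.natDegree, hA⟩)
        exact (leadingCoeff_ne_zero.2 h0) h2
      · have h2 := congrFun hw (Sum.inr ⟨B.natDegree, hB⟩)
        exact (leadingCoeff_ne_zero.2 h0) h2
    · funext i
      have h2 := h (f i) (hf i)
      rw [eval_eq_sum_range' hA, eval_eq_sum_range' hB, Finset.sum_range, Finset.sum_range] at h2
      change ∑ j, (((Mat n (fun i => x (f i)) (fun i => y (f i)) f) i j : ℤ) : ℚ) *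
        (Sum.elim (fun j : Fin n => A.coeff j) (fun j : Fin n => B.coeff j)) j = 0
      rw [Fintype.sum_sum_type, ← h2, Finset.mul_sum, Finset.mul_sum]
      congr 1
      · refine Finset.sum_congr rfl fun j _ => ?_
        change ((x (f i) * (f i) ^ (j : ℕ) : ℤ) : ℚ) * A.coeff j = _
        push_cast
        ring
      · refine Finset.sum_congr rfl fun j _ => ?_
        change ((y (f i) * (f i) ^ (j : ℕ) : ℤ) : ℚ) * B.coeff j = _
        push_cast
        ring
  have h3 := RingHom.map_det (Int.castRingHom ℚ) (Mat n (fun i => x (f i)) (fun i => y (f i)) f)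
  rw [h1] at h3
  exact Int.cast_injective (α := ℚ) (by rw [Int.cast_zero]; exact h3)

theorem pow_mono {m : ℕ} {H : ℝ} (hm : 1 ≤ m) (hH : 1 ≤ H) :
    (2 * ((m - 1 : ℕ) : ℝ) * H) ^ (2 * (m - 1)) ≤ (2 * m * H) ^ (2 * m) := by
  have h0 : (0 : ℝ) ≤ ((m - 1 : ℕ) : ℝ) := Nat.cast_nonneg _
  have h1 : ((m - 1 : ℕ) : ℝ) ≤ m := by exact_mod_cast Nat.sub_le m 1
  have hm' : (1 : ℝ) ≤ m := by exact_mod_cast hm
  have h2 : (2 * ((m - 1 : ℕ) : ℝ) * H) ≤ 2 * m * H := by nlinarith
  have h3 : (1 : ℝ) ≤ 2 * m * H := by nlinarith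
  calc (2 * ((m - 1 : ℕ) : ℝ) * H) ^ (2 * (m - 1)) ≤ (2 * m * H) ^ (2 * (m - 1)) :=
        pow_le_pow_left₀ (by positivity) h2 _
    _ ≤ (2 * m * H) ^ (2 * m) := pow_le_pow_right₀ h3 (by omega)

theorem min : StmtMIN := by
  classical
  intro m
  induction m using Nat.strong_induction_on with
  | _ m ih =>
  intro hm T x y H hH hb hdet
  have hm' : (1 : ℝ) ≤ m := by exact_mod_cast hm
  have hbase : (1 : ℝ) ≤ 2 * m * H := by nlinarith
  have hone : (1 : ℝ) ≤ (2 * m * H) ^ (2 * m) := one_le_pow₀ hbase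
  rcases T.eq_empty_or_nonempty with rfl | ⟨τ0, hτ0⟩
  · refine ⟨∅, Finset.Subset.refl _, by simp, 1, 0, Or.inl one_ne_zero, ?_, ?_, ?_, ?_, ?_, ?_⟩
    · rw [natDegree_one]; omega
    · rw [natDegree_zero]; omega
    · intro k
      rw [coeff_one]
      split_ifs
      · simpa using hone
      · simp only [Int.cast_zero, abs_zero]
        linarith
    · intro k
      simp only [coeff_zero, Int.cast_zero, abs_zero]
      linarith
    · rw [Polynomial.map_one, Polynomial.map_zero]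
      exact isCoprime_one_left
    · intro τ hτ
      exact absurd hτ (Finset.notMem_empty τ)
  -- the relation
  let M : {τ // τ ∈ T} → Fin m ⊕ Fin m → ℤ := fun i =>
    Sum.elim (fun j : Fin m => x i * (i : ℤ) ^ (j : ℕ)) (fun j : Fin m => y i * (i : ℤ) ^ (j : ℕ))
  obtain ⟨v, hv0, hvA, hvb⟩ := Pool.Agent.W563.HZ.REL.t M H hH ⟨⟨τ0, hτ0⟩⟩ (by
    rintro ⟨τ, hτ⟩ (j | j)
    · exact (hb τ hτ j j.2).1
    · exact (hb τ hτ j j.2).2) (fun f => hdet (fun i => (f i : ℤ)) (fun i => (f i).2))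
  have hcard : Fintype.card (Fin m ⊕ Fin m) = 2 * m := by
    rw [Fintype.card_sum, Fintype.card_fin]; ring
  rw [hcard] at hvb
  push_cast at hvb
  have hcf : ∀ (w : Fin m → ℤ), (∀ j, |(w j : ℝ)| ≤ (2 * m * H) ^ (2 * m)) →
      ∀ k, |((pol w).coeff k : ℝ)| ≤ (2 * m * H) ^ (2 * m) := by
    intro w hw k
    rw [coeff_pol]
    by_cases hk : k < m
    · rw [dif_pos hk]; exact hw _
    · rw [dif_neg hk]; simp only [Int.cast_zero, abs_zero]; linarith
  obtain ⟨A0, hA0⟩ : ∃ A0, A0 = pol fun j => v (Sum.inl j) := ⟨_, rfl⟩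
  obtain ⟨B0, hB0⟩ : ∃ B0, B0 = pol fun j => v (Sum.inr j) := ⟨_, rfl⟩
  have hne : A0 ≠ 0 ∨ B0 ≠ 0 := by
    rw [hA0, hB0]
    obtain ⟨j, hj⟩ := Function.ne_iff.1 hv0
    rcases j with j | j
    · exact Or.inl (pol_ne _ j hj)
    · exact Or.inr (pol_ne _ j hj)
  have hdA : A0.natDegree < m := by rw [hA0]; exact natDegree_pol hm _
  have hdB : B0.natDegree < m := by rw [hB0]; exact natDegree_pol hm _
  have hrel : ∀ τ ∈ T, x τ * A0.eval τ + y τ * B0.eval τ = 0 := by
    intro τ hτ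
    have h1 := hvA ⟨τ, hτ⟩
    rw [Fintype.sum_sum_type] at h1
    rw [hA0, hB0, eval_pol, eval_pol, Finset.mul_sum, Finset.mul_sum, ← h1]
    congr 1
    · refine Finset.sum_congr rfl fun j _ => ?_
      change _ = x τ * τ ^ (j : ℕ) * v (Sum.inl j)
      ring
    · refine Finset.sum_congr rfl fun j _ => ?_
      change _ = y τ * τ ^ (j : ℕ) * v (Sum.inr j)
      ring
  by_cases hco : IsCoprime (A0.map (Int.castRingHom ℚ)) (B0.map (Int.castRingHom ℚ))
  · refine ⟨T, Finset.Subset.refl _, by simp, A0, B0, hne, hdA, hdB, ?_, ?_, hco, hrel⟩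
    · rw [hA0]; exact hcf _ fun j => hvb _
    · rw [hB0]; exact hcf _ fun j => hvb _
  -- the common factor
  have hinj : Function.Injective (Int.castRingHom ℚ) := Int.cast_injective
  set a := A0.map (Int.castRingHom ℚ) with ha
  set b := B0.map (Int.castRingHom ℚ) with hbd
  have hda : a.natDegree < m := by rw [ha, natDegree_map_eq_of_injective hinj]; exact hdA
  have hdb : b.natDegree < m := by rw [hbd, natDegree_map_eq_of_injective hinj]; exact hdB
  have hne' : a ≠ 0 ∨ b ≠ 0 := by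
    rcases hne with h | h
    · left
      rw [ha, Ne, Polynomial.map_eq_zero_iff hinj]
      exact h
    · right
      rw [hbd, Ne, Polynomial.map_eq_zero_iff hinj]
      exact h
  obtain ⟨G, hG⟩ : ∃ G, G = EuclideanDomain.gcd a b := ⟨_, rfl⟩
  have hGu : ¬ IsUnit G := by
    rw [hG, EuclideanDomain.gcd_isUnit_iff]
    exact hco
  have hG0 : G ≠ 0 := by
    rw [hG, Ne, EuclideanDomain.gcd_eq_zero_iff]
    rintro ⟨h1, h2⟩
    exact hne'.elim (fun h => h h1) (fun h => h h2)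
  have hGd : 1 ≤ G.natDegree := by
    by_contra hlt
    have h0 : G.natDegree = 0 := by omega
    apply hGu
    rw [eq_C_of_natDegree_eq_zero h0] at hG0 ⊢
    rw [isUnit_C, isUnit_iff_ne_zero]
    intro h1
    rw [h1, C_0] at hG0
    exact hG0 rfl
  obtain ⟨a1, ha1⟩ : G ∣ a := by rw [hG]; exact EuclideanDomain.gcd_dvd_left a b
  obtain ⟨b1, hb1⟩ : G ∣ b := by rw [hG]; exact EuclideanDomain.gcd_dvd_right a b
  have hne1 : a1 ≠ 0 ∨ b1 ≠ 0 := by
    rcases hne' with h | h
    · left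
      rintro rfl
      exact h (by rw [ha1, mul_zero])
    · right
      rintro rfl
      exact h (by rw [hb1, mul_zero])
  have hdeg : ∀ c c1 : ℚ[X], c = G * c1 → c.natDegree < m → c1 ≠ 0 →
      G.natDegree + c1.natDegree < m := by
    intro c c1 h1 h2 h3
    rwa [h1, natDegree_mul hG0 h3] at h2
  have hGm : G.natDegree < m := by
    rcases hne1 with h | h
    · have := hdeg a a1 ha1 hda h
      omega
    · have := hdeg b b1 hb1 hdb h
      omega
  have hm2 : 2 ≤ m := by omega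
  have hda1 : a1.natDegree < m - 1 := by
    by_cases h : a1 = 0
    · rw [h, natDegree_zero]; omega
    · have := hdeg a a1 ha1 hda h
      omega
  have hdb1 : b1.natDegree < m - 1 := by
    by_cases h : b1 = 0
    · rw [h, natDegree_zero]; omega
    · have := hdeg b b1 hb1 hdb h
      omega
  set T1 : Finset ℤ := T.filter (fun τ : ℤ => G.eval (τ : ℚ) ≠ 0) with hT1
  have hT1c : (T \ T1).card ≤ m - 1 := by
    have h1 : ((T \ T1).image (fun τ : ℤ => (τ : ℚ))) ⊆ G.roots.toFinset := by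
      intro q hq
      rw [Finset.mem_image] at hq
      obtain ⟨τ, hτ, rfl⟩ := hq
      rw [Finset.mem_sdiff, hT1, Finset.mem_filter, not_and, not_not] at hτ
      rw [Multiset.mem_toFinset, mem_roots hG0]
      exact hτ.2 hτ.1
    have h2 := Finset.card_le_card h1
    rw [Finset.card_image_of_injective _ Int.cast_injective] at h2
    have h3 := Multiset.toFinset_card_le G.roots
    have h4 := G.card_roots'
    omega
  have hrel1 : ∀ τ ∈ T1, (x τ : ℚ) * a1.eval (τ : ℚ) + (y τ : ℚ) * b1.eval (τ : ℚ) = 0 := by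
    intro τ hτ
    rw [hT1, Finset.mem_filter] at hτ
    have h1 := hrel τ hτ.1
    have h2 : (x τ : ℚ) * a.eval (τ : ℚ) + (y τ : ℚ) * b.eval (τ : ℚ) = 0 := by
      have e1 : a.eval (τ : ℚ) = ((A0.eval τ : ℤ) : ℚ) := by
        rw [ha]
        exact eval_intCast_map (Int.castRingHom ℚ) A0 τ
      have e2 : b.eval (τ : ℚ) = ((B0.eval τ : ℤ) : ℚ) := by
        rw [hbd]
        exact eval_intCast_map (Int.castRingHom ℚ) B0 τ
      rw [e1, e2]
      exact_mod_cast h1
    rw [ha1, hb1, eval_mul, eval_mul] at h2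
    have h3 : G.eval (τ : ℚ) * ((x τ : ℚ) * a1.eval (τ : ℚ) + (y τ : ℚ) * b1.eval (τ : ℚ)) = 0 := by
      linear_combination h2
    exact (mul_eq_zero.1 h3).resolve_left hτ.2
  obtain ⟨T', hT', hT'c, A, B, hAB, hA, hB, hcA, hcB, hc, hr⟩ := ih (m - 1) (by omega) (by omega) T1 x y H hH
    (fun τ hτ j hj => hb τ (Finset.filter_subset _ _ hτ) j (by omega))
    (fun f hf => det_zero hne1 hda1 hdb1 hrel1 f hf)
  refine ⟨T', hT'.trans (Finset.filter_subset _ _), ?_, A, B, hAB, by omega, by omega,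
    fun k => (hcA k).trans (pow_mono hm hH), fun k => (hcB k).trans (pow_mono hm hH), hc, hr⟩
  have h1 : T \ T' ⊆ (T \ T1) ∪ (T1 \ T') := by
    intro τ hτ
    rw [Finset.mem_sdiff] at hτ
    rw [Finset.mem_union, Finset.mem_sdiff, Finset.mem_sdiff]
    by_cases h : τ ∈ T1
    · exact Or.inr ⟨h, hτ.2⟩
    · exact Or.inl ⟨hτ.1, h⟩
  have h2 := (Finset.card_le_card h1).trans (Finset.card_union_le _ _)
  obtain ⟨k, rfl⟩ : ∃ k, m = k + 1 := ⟨m - 1, by omega⟩
  rw [Nat.add_sub_cancel] at hT'c hT1c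
  nlinarith

end Pool.Agent.Q182.PL
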