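import Pool.Agent.H45.Lib.Ts3997aac3.Q276.PL.Stm

/-! Project PL (helper276), job SIDE (helper182): the fundamental solutions with coprime relations
for `x - 1` and `x + 1`. -/

set_option autoImplicit false

namespace Pool.Agent.Q182.PL

open Polynomial Pool.Agent.W223.HZ Pool.Agent.W223.PL Pool.Agent.Q276.PL

/-- the polynomial `n (Q ^ 2 - (d₀ + X) P ^ 2)` -/
noncomputable def GG (n d₀ : ℤ) (P Q : ℤ[X]) : ℤ[X] := C n * (Q ^ 2 - (C d₀ + X) * P ^ 2)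

theorem deg_GG {m : ℕ} {n d₀ : ℤ} {P Q : ℤ[X]} (hP : P.natDegree < m) (hQ : Q.natDegree < m) :
    (GG n d₀ P Q).natDegree ≤ 2 * m := by
  unfold GG
  refine (natDegree_C_mul_le _ _).trans ?_
  refine (natDegree_sub_le_of_le (m := 2 * m) (n := 2 * m) ?_ ?_).trans (by simp)
  · refine natDegree_pow_le.trans ?_
    omega
  · have h1 : (C d₀ + X : ℤ[X]).natDegree ≤ 1 := by
      refine (natDegree_add_le _ _).trans ?_
      rw [natDegree_C, natDegree_X]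
      simp
    have h2 : (P ^ 2).natDegree ≤ 2 * P.natDegree := natDegree_pow_le
    refine natDegree_mul_le.trans ?_
    omega

theorem eval_GG (n d₀ τ : ℤ) (P Q : ℤ[X]) :
    (GG n d₀ P Q).eval τ = n * ((Q.eval τ) ^ 2 - (d₀ + τ) * (P.eval τ) ^ 2) := by
  unfold GG
  simp only [eval_mul, eval_C, eval_sub, eval_pow, eval_add, eval_X]

theorem le_gcd {z : ℝ} {a b c : ℤ} (hz : z < (c : ℝ)) (ha : c ∣ a) (hb : c ∣ b)
    (h0 : a ≠ 0) : z < (Int.gcd a b : ℝ) := by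
  have h1 : c ∣ (Int.gcd a b : ℤ) := Int.dvd_coe_gcd ha hb
  have h2 : (0 : ℤ) < (Int.gcd a b : ℤ) := by
    have h3 : 0 < Int.gcd a b := Int.gcd_pos_of_ne_zero_left _ h0
    exact_mod_cast h3
  have h3 : c ≤ (Int.gcd a b : ℤ) := Int.le_of_dvd h2 h1
  have h4 : (c : ℝ) ≤ ((Int.gcd a b : ℤ) : ℝ) := by exact_mod_cast h3
  have h5 : (((Int.gcd a b : ℤ)) : ℝ) = (Int.gcd a b : ℝ) := by push_cast; rfl
  rw [h5] at h4
  exact lt_of_lt_of_le hz h4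

theorem side (hAR : StmtAR) (hNSQ : StmtNSQ) (hCUQ : StmtCUQ) : StmtSIDE := by
  classical
  intro m d₀ L z Λ T x y P Q P' Q' hm hL hz hΛ hmΛ hT hdP hdQ hdP' hdQ' hco hco' hrel hrel' hbd
  have hAR' : ∀ τ ∈ T, ∃ e e' r s κ : ℤ, 1 ≤ e ∧ 1 ≤ e' ∧ 1 ≤ r ∧ 1 ≤ s ∧ e * e' = d₀ + τ ∧
      (κ = 1 ∨ κ = 2) ∧ (x τ - 1) * s = e * r * y τ ∧ (x τ + 1) * r = e' * s * y τ ∧
      e' * s ^ 2 - e * r ^ 2 = κ ∧ IsCoprime (e * r) s ∧ IsCoprime (e' * s) r ∧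
      ¬ IsSquare (κ * e') := fun τ hτ =>
    hAR (d₀ + τ) (x τ) (y τ) (hT τ hτ).2.1 (hT τ hτ).2.2.1 (hT τ hτ).2.2.2
  choose! e e' r s κ hall using hAR'
  have hy : ∀ τ ∈ T, y τ ≠ 0 := by
    intro τ hτ
    have := (hT τ hτ).2.2.2.2.1
    omega
  have hg : ∀ τ ∈ T, ∃ g : ℤ, P.eval τ = s τ * g ∧ Q.eval τ = -(e τ * r τ * g) := by
    intro τ hτ
    obtain ⟨he, he', hr, hs, hd, hκ, h1, h2, h3, hc1, hc2, hsq⟩ := hall τ hτ
    have h4 : y τ * (e τ * r τ * P.eval τ + s τ * Q.eval τ) = 0 := by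
      linear_combination s τ * hrel τ hτ - P.eval τ * h1
    have h5 := (mul_eq_zero.1 h4).resolve_left (hy τ hτ)
    have h6 : s τ ∣ e τ * r τ * P.eval τ := ⟨-Q.eval τ, by linear_combination h5⟩
    obtain ⟨g, hg⟩ := hc1.symm.dvd_of_dvd_mul_left h6
    refine ⟨g, hg, ?_⟩
    have hs0 : s τ ≠ 0 := by omega
    apply mul_left_cancel₀ hs0
    rw [hg] at h5
    linear_combination h5
  have hh : ∀ τ ∈ T, ∃ h : ℤ, P'.eval τ = r τ * h ∧ Q'.eval τ = -(e' τ * s τ * h) := by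
    intro τ hτ
    obtain ⟨he, he', hr, hs, hd, hκ, h1, h2, h3, hc1, hc2, hsq⟩ := hall τ hτ
    have h4 : y τ * (e' τ * s τ * P'.eval τ + r τ * Q'.eval τ) = 0 := by
      linear_combination r τ * hrel' τ hτ - P'.eval τ * h2
    have h5 := (mul_eq_zero.1 h4).resolve_left (hy τ hτ)
    have h6 : r τ ∣ e' τ * s τ * P'.eval τ := ⟨-Q'.eval τ, by linear_combination h5⟩
    obtain ⟨g, hg⟩ := hc2.symm.dvd_of_dvd_mul_left h6
    refine ⟨g, hg, ?_⟩
    have hs0 : r τ ≠ 0 := by omega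
    apply mul_left_cancel₀ hs0
    rw [hg] at h5
    linear_combination h5
  obtain ⟨W, hW⟩ : ∃ W : ℝ, W = 200000 * √L * Λ ^ 2 * Real.log (120 * √L * Λ) := ⟨_, rfl⟩
  have hsL : 1 ≤ √L := Real.one_le_sqrt.2 hL
  have hlog : 0 ≤ Real.log (120 * √L * Λ) := by
    apply Real.log_nonneg
    have h1 : 1 ≤ √L * Λ := one_le_mul_of_one_le_of_one_le hsL hΛ
    nlinarith
  have hW0 : 0 ≤ W := by
    rw [hW]
    positivity
  have hk : ((2 * m : ℕ) : ℝ) ≤ Λ := by push_cast; exact hmΛ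
  -- the bound for the size of the roots
  have hsize : ∀ (k a t g : ℤ) (p : ℤ), (k = 1 ∨ k = 2) → 1 ≤ a → (a : ℝ) ≤ z → 1 ≤ t →
      p = t * g → 2 * z * |(p : ℝ)| ≤ Real.exp Λ → |((k * a * g : ℤ) : ℝ)| ≤ Real.exp Λ := by
    intro k a t g p hk ha haz ht hp hb
    refine le_trans ?_ hb
    have h1 : |((k * a * g : ℤ) : ℝ)| = |(k : ℝ)| * |(a : ℝ)| * |(g : ℝ)| := by
      push_cast
      rw [abs_mul, abs_mul]
    have h2 : |(p : ℝ)| = |(t : ℝ)| * |(g : ℝ)| := by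
      rw [hp]
      push_cast
      rw [abs_mul]
    have h3 : |(k : ℝ)| ≤ 2 := by
      rcases hk with rfl | rfl <;> norm_num
    have h4 : |(a : ℝ)| ≤ z := by
      rw [abs_of_nonneg (by exact_mod_cast (by omega : (0 : ℤ) ≤ a))]
      exact haz
    have h5 : 1 ≤ |(t : ℝ)| := by
      rw [abs_of_nonneg (by exact_mod_cast (by omega : (0 : ℤ) ≤ t))]
      exact_mod_cast ht
    rw [h1, h2]
    calc |(k : ℝ)| * |(a : ℝ)| * |(g : ℝ)| ≤ 2 * z * |(g : ℝ)| := by gcongr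
      _ = 2 * z * (1 * |(g : ℝ)|) := by ring
      _ ≤ 2 * z * (|(t : ℝ)| * |(g : ℝ)|) := by gcongr
  have claim1 : ∀ k a : ℤ, (k = 1 ∨ k = 2) → 1 ≤ a → (a : ℝ) ≤ z →
      ((T.filter (fun τ => e τ = a ∧ κ τ = k)).card : ℝ) ≤ W := by
    intro k a hk2 ha haz
    have hns : ¬ IsSquare (-(k * a)) := by
      rintro ⟨w, hw⟩
      have h1 : 0 < k * a := by
        rcases hk2 with rfl | rfl <;> omega
      nlinarith [mul_self_nonneg w]
    rw [hW]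
    refine hCUQ (GG (-(k * a)) d₀ P Q) (2 * m) (deg_GG hdP hdQ) (hNSQ P Q d₀ _ hco hns) L Λ hL hΛ hk
      _ ?_ ?_
    · intro τ hτ
      rw [Finset.mem_filter] at hτ
      exact (hT τ hτ.1).1
    · intro τ hτ
      rw [Finset.mem_filter] at hτ
      obtain ⟨hτT, hea, hκk⟩ := hτ
      obtain ⟨g, hg1, hg2⟩ := hg τ hτT
      obtain ⟨he, he', hr, hs, hd, hκ, h1, h2, h3, hc1, hc2, hsq⟩ := hall τ hτT
      refine ⟨k * a * g, ?_, hsize k a (s τ) g _ hk2 ha haz hs hg1 (hbd τ hτT).1⟩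
      rw [eval_GG, hg1, hg2, ← hd, ← hea, ← hκk, ← h3]
      ring
  have claim2 : ∀ k a : ℤ, (k = 1 ∨ k = 2) → 1 ≤ a → (a : ℝ) ≤ z →
      ((T.filter (fun τ => e' τ = a ∧ κ τ = k)).card : ℝ) ≤ W := by
    intro k a hk2 ha haz
    by_cases hns : IsSquare (k * a)
    · have hemp : T.filter (fun τ => e' τ = a ∧ κ τ = k) = ∅ := by
        rw [Finset.filter_eq_empty_iff]
        rintro τ hτ ⟨h1, h2⟩
        apply (hall τ hτ).2.2.2.2.2.2.2.2.2.2.2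
        rw [h1, h2]
        exact hns
      rw [hemp]
      simpa using hW0
    rw [hW]
    refine hCUQ (GG (k * a) d₀ P' Q') (2 * m) (deg_GG hdP' hdQ') (hNSQ P' Q' d₀ _ hco' hns) L Λ hL
      hΛ hk _ ?_ ?_
    · intro τ hτ
      rw [Finset.mem_filter] at hτ
      exact (hT τ hτ.1).1
    · intro τ hτ
      rw [Finset.mem_filter] at hτ
      obtain ⟨hτT, hea, hκk⟩ := hτ
      obtain ⟨g, hg1, hg2⟩ := hh τ hτT
      obtain ⟨he, he', hr, hs, hd, hκ, h1, h2, h3, hc1, hc2, hsq⟩ := hall τ hτT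
      refine ⟨k * a * g, ?_, hsize k a (r τ) g _ hk2 ha haz hr hg1 (hbd τ hτT).2⟩
      rw [eval_GG, hg1, hg2, ← hd, ← hea, ← hκk, ← h3]
      ring
  -- the exceptional set
  obtain ⟨E, hE⟩ : ∃ E : Finset ℤ, E = T.filter (fun τ => (e τ : ℝ) ≤ z ∨ (e' τ : ℝ) ≤ z) := ⟨_, rfl⟩
  have hET : E ⊆ T := by
    rw [hE]
    exact Finset.filter_subset _ _
  have hbig : ∀ τ ∈ T \ E, z < (e τ : ℝ) ∧ z < (e' τ : ℝ) := by
    intro τ hτ
    rw [Finset.mem_sdiff, hE, Finset.mem_filter, not_and, not_or, not_le, not_le] at hτ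
    exact hτ.2 hτ.1
  obtain ⟨J, hJ⟩ : ∃ J : Finset (ℤ × ℤ), J = ({1, 2} : Finset ℤ) ×ˢ Finset.Icc 1 ⌊z⌋ := ⟨_, rfl⟩
  have hJmem : ∀ p ∈ J, (p.1 = 1 ∨ p.1 = 2) ∧ 1 ≤ p.2 ∧ (p.2 : ℝ) ≤ z := by
    intro p hp
    rw [hJ, Finset.mem_product, Finset.mem_insert, Finset.mem_singleton, Finset.mem_Icc] at hp
    exact ⟨hp.1, hp.2.1, Int.le_floor.1 hp.2.2⟩
  have hJc : (J.card : ℝ) ≤ 2 * z := by
    rw [hJ, Finset.card_product, Int.card_Icc]
    have h1 : (({1, 2} : Finset ℤ)).card = 2 := by decide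
    rw [h1]
    push_cast
    have h2 : ((⌊z⌋ + 1 - 1).toNat : ℤ) = ⌊z⌋ := by
      rw [add_sub_cancel_right, Int.toNat_of_nonneg (Int.floor_nonneg.2 (by linarith))]
    have h3 : (((⌊z⌋ + 1 - 1).toNat : ℕ) : ℝ) = ((⌊z⌋ : ℤ) : ℝ) := by
      have h4 := congrArg (Int.cast : ℤ → ℝ) h2
      rwa [Int.cast_natCast] at h4
    rw [h3]
    have := Int.floor_le z
    linarith
  have hEc : (E.card : ℝ) ≤ 4 * z * W := by
    have h1 : E ⊆ J.biUnion (fun p => T.filter (fun τ => e τ = p.2 ∧ κ τ = p.1) ∪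
        T.filter (fun τ => e' τ = p.2 ∧ κ τ = p.1)) := by
      intro τ hτ
      rw [hE, Finset.mem_filter] at hτ
      obtain ⟨hτT, hor⟩ := hτ
      have hal := hall τ hτT
      rw [Finset.mem_biUnion]
      rcases hor with h2 | h2
      · refine ⟨(κ τ, e τ), ?_, ?_⟩
        · rw [hJ, Finset.mem_product, Finset.mem_insert, Finset.mem_singleton, Finset.mem_Icc]
          exact ⟨hal.2.2.2.2.2.1, hal.1, Int.le_floor.2 h2⟩
        · rw [Finset.mem_union, Finset.mem_filter]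
          exact Or.inl ⟨hτT, rfl, rfl⟩
      · refine ⟨(κ τ, e' τ), ?_, ?_⟩
        · rw [hJ, Finset.mem_product, Finset.mem_insert, Finset.mem_singleton, Finset.mem_Icc]
          exact ⟨hal.2.2.2.2.2.1, hal.2.1, Int.le_floor.2 h2⟩
        · rw [Finset.mem_union, Finset.mem_filter, Finset.mem_filter]
          exact Or.inr ⟨hτT, rfl, rfl⟩
    have h2 : (E.card : ℝ) ≤ ((J.biUnion (fun p => T.filter (fun τ => e τ = p.2 ∧ κ τ = p.1) ∪
        T.filter (fun τ => e' τ = p.2 ∧ κ τ = p.1))).card : ℝ) := by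
      exact_mod_cast Finset.card_le_card h1
    have h3 : ((J.biUnion (fun p => T.filter (fun τ => e τ = p.2 ∧ κ τ = p.1) ∪
        T.filter (fun τ => e' τ = p.2 ∧ κ τ = p.1))).card : ℝ) ≤
        ∑ p ∈ J, (((T.filter (fun τ => e τ = p.2 ∧ κ τ = p.1) ∪
        T.filter (fun τ => e' τ = p.2 ∧ κ τ = p.1)).card : ℕ) : ℝ) := by
      exact_mod_cast Finset.card_biUnion_le
    have h4 : ∀ p ∈ J, (((T.filter (fun τ => e τ = p.2 ∧ κ τ = p.1) ∪
        T.filter (fun τ => e' τ = p.2 ∧ κ τ = p.1)).card : ℕ) : ℝ) ≤ 2 * W := by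
      intro p hp
      obtain ⟨hp1, hp2, hp3⟩ := hJmem p hp
      have h5 : (((T.filter (fun τ => e τ = p.2 ∧ κ τ = p.1) ∪
        T.filter (fun τ => e' τ = p.2 ∧ κ τ = p.1)).card : ℕ) : ℝ) ≤
        ((T.filter (fun τ => e τ = p.2 ∧ κ τ = p.1)).card : ℝ) +
        ((T.filter (fun τ => e' τ = p.2 ∧ κ τ = p.1)).card : ℝ) := by
        exact_mod_cast Finset.card_union_le _ _
      have h6 := claim1 p.1 p.2 hp1 hp2 hp3
      have h7 := claim2 p.1 p.2 hp1 hp2 hp3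
      linarith
    have h5 := Finset.sum_le_sum h4
    rw [Finset.sum_const, nsmul_eq_mul] at h5
    have h6 : (J.card : ℝ) * (2 * W) ≤ 2 * z * (2 * W) :=
      mul_le_mul_of_nonneg_right hJc (by positivity)
    linarith
  refine ⟨E, hET, ?_, ?_, ?_⟩
  · refine hEc.trans (le_of_eq ?_)
    rw [hW]
    ring
  · intro hQ0 τ hτ
    have hτT : τ ∈ T := (Finset.mem_sdiff.1 hτ).1
    obtain ⟨g, hg1, hg2⟩ := hg τ hτT
    obtain ⟨he, he', hr, hs, hd, -⟩ := hall τ hτT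
    have h1 : e τ ∣ d₀ + τ := ⟨e' τ, hd.symm⟩
    have h2 : d₀ + τ ∣ Q.eval τ - Q.eval (-d₀) := by
      have h3 := sub_dvd_eval_sub τ (-d₀) Q
      rwa [sub_neg_eq_add, add_comm τ d₀] at h3
    have h3 : e τ ∣ Q.eval τ := ⟨-(r τ * g), by rw [hg2]; ring⟩
    have h4 : e τ ∣ Q.eval (-d₀) := by
      have h5 := dvd_sub h3 (h1.trans h2)
      rwa [sub_sub_cancel] at h5
    refine le_gcd (hbig τ hτ).1 h1 h4 ?_
    have := (hT τ hτT).2.1
    omega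
  · intro hQ0
    have hP0 : P.eval (-d₀) ≠ 0 := by
      intro hP0
      obtain ⟨U, V, hUV⟩ := hco
      have h1 := congrArg (eval ((-d₀ : ℤ) : ℚ)) hUV
      have e1 : (P.map (Int.castRingHom ℚ)).eval ((-d₀ : ℤ) : ℚ) = ((P.eval (-d₀) : ℤ) : ℚ) :=
        eval_intCast_map (Int.castRingHom ℚ) P (-d₀)
      have e2 : (Q.map (Int.castRingHom ℚ)).eval ((-d₀ : ℤ) : ℚ) = ((Q.eval (-d₀) : ℤ) : ℚ) :=
        eval_intCast_map (Int.castRingHom ℚ) Q (-d₀)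
      rw [eval_add, eval_mul, eval_mul, e1, e2, hP0, hQ0, eval_one] at h1
      simp at h1
    refine ⟨hP0, fun τ hτ => ?_⟩
    have hτT : τ ∈ T := (Finset.mem_sdiff.1 hτ).1
    obtain ⟨g, hg1, hg2⟩ := hg τ hτT
    obtain ⟨he, he', hr, hs, hd, hκ, -, -, -, hc1, hc2, -⟩ := hall τ hτT
    have hroot : (X - C (-d₀)) ∣ Q := dvd_iff_isRoot.2 hQ0
    obtain ⟨Q2, hQ2⟩ := hroot
    have h1 : Q.eval τ = (d₀ + τ) * Q2.eval τ := by
      rw [hQ2, eval_mul, eval_sub, eval_X, eval_C]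
      ring
    have h2 : e' τ * Q2.eval τ = -(r τ * g) := by
      have he0 : e τ ≠ 0 := by omega
      apply mul_left_cancel₀ he0
      rw [hg2, ← hd] at h1
      linear_combination -h1
    have h3 : e' τ ∣ r τ * g := ⟨-Q2.eval τ, by linear_combination h2⟩
    have h4 : IsCoprime (e' τ) (r τ) := hc2.of_mul_left_left
    have h5 : e' τ ∣ g := h4.dvd_of_dvd_mul_left h3
    have h6 : e' τ ∣ P.eval τ := by
      rw [hg1]
      exact h5.mul_left _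
    have h7 : e' τ ∣ d₀ + τ := ⟨e τ, by rw [← hd]; ring⟩
    have h8 : d₀ + τ ∣ P.eval τ - P.eval (-d₀) := by
      have h3 := sub_dvd_eval_sub τ (-d₀) P
      rwa [sub_neg_eq_add, add_comm τ d₀] at h3
    have h9 : e' τ ∣ P.eval (-d₀) := by
      have h5 := dvd_sub h6 (h7.trans h8)
      rwa [sub_sub_cancel] at h5
    refine le_gcd (hbig τ hτ).2 h7 h9 ?_
    have := (hT τ hτT).2.1
    omega

end Pool.Agent.Q182.PL
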